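import Pool.Agent.Helper29.UG.Props
import Pool.Agent.Helper10.RC.Homs

/-! # MP_b55b7c_an: matrices over an algebra with invariant halves (packet EHMat) -/

open scoped ENNReal NNReal InnerProductSpace ComplexOrder
open Filter Topology

attribute [-instance] CStarMatrix.instAlgebra CStarMatrix.instModule CStarMatrix.instSMul
  CStarMatrix.instMulAction CStarMatrix.instDistribMulAction

set_option linter.unusedSectionVars false

noncomputable section
namespace RC
universe u

section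
variable {A : Type u} [CStarAlgebra A] [PartialOrder A] [StarOrderedRing A]
variable {ν : Type} [Fintype ν] [DecidableEq ν]

/-- A matrix with one entry. -/
def eij51 (i j : ν) (a : A) : CStarMatrix ν ν A := CStarMatrix.ofMatrix (Matrix.single i j a)

lemma eij51_mul (i j k : ν) (a b : A) : eij51 i j a * eij51 j k b = eij51 i k (a * b) :=
  Matrix.single_mul_single_same _ _ _ _ _

lemma eij51_mul_ne (i j k l : ν) (h : j ≠ k) (a b : A) : eij51 i j a * eij51 k l b = 0 :=
  Matrix.single_mul_single_of_ne _ _ _ _ h _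

lemma eij51_sum (T : CStarMatrix ν ν A) : T = ∑ i, ∑ j, eij51 i j (T i j) :=
  Matrix.matrix_eq_sum_single T

lemma eij51_dg (a : A) : dg ν a = ∑ i, eij51 i i a := by
  conv_lhs => rw [eij51_sum (dg ν a)]
  refine Finset.sum_congr rfl fun i _ => ?_
  rw [Finset.sum_eq_single i]
  · rw [dg_apply, if_pos rfl]
  · intro j _ hj
    rw [dg_apply, if_neg (Ne.symm hj)]
    show CStarMatrix.ofMatrix (Matrix.single i j (0 : A)) = 0
    rw [Matrix.single_zero]
    rfl
  · intro h
    exact absurd (Finset.mem_univ i) h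

/-- The restriction of a tracial state of the matrix algebra to the diagonal. -/
def res51 (φ' : TState (CStarMatrix ν ν A)) : TState A where
  φ := φ'.φ ∘ₗ (dgH ν : A →⋆ₐ[ℂ] CStarMatrix ν ν A).toAlgHom.toLinearMap
  nonneg a ha := φ'.nonneg _ (dg_nonneg ha)
  trace a b := by
    show φ'.φ (dgH ν (a * b)) = φ'.φ (dgH ν (b * a))
    rw [map_mul (dgH ν), map_mul (dgH ν), φ'.trace]
  one := by
    show φ'.φ (dgH ν 1) = 1
    rw [map_one (dgH ν), φ'.one]

lemma res51_apply (φ' : TState (CStarMatrix ν ν A)) (a : A) :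
    (res51 φ').φ a = φ'.φ (dg ν a) := rfl

lemma tr51_off (φ' : TState (CStarMatrix ν ν A)) (i j : ν) (h : i ≠ j) (a : A) :
    φ'.φ (eij51 i j a) = 0 := by
  have h1 : eij51 i j a = eij51 i i 1 * eij51 i j a := by rw [eij51_mul, one_mul]
  rw [h1, φ'.trace, eij51_mul_ne _ _ _ _ (Ne.symm h), map_zero]

lemma tr51_diag (φ' : TState (CStarMatrix ν ν A)) (i j : ν) (a : A) :
    φ'.φ (eij51 i i a) = φ'.φ (eij51 j j a) := by
  have h1 : eij51 i i a = eij51 i j a * eij51 j i 1 := by rw [eij51_mul, mul_one]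
  rw [h1, φ'.trace, eij51_mul, one_mul]

lemma tr51_one (φ' : TState (CStarMatrix ν ν A)) (i : ν) (a : A) :
    (res51 φ').φ a = (Fintype.card ν : ℂ) * φ'.φ (eij51 i i a) := by
  rw [res51_apply, eij51_dg, map_sum, Finset.sum_congr rfl fun j _ => tr51_diag φ' j i a,
    Finset.sum_const, Finset.card_univ, nsmul_eq_mul]

lemma tr51 [Nonempty ν] (φ' : TState (CStarMatrix ν ν A)) (T : CStarMatrix ν ν A) :
    φ'.φ T = (Fintype.card ν : ℂ)⁻¹ * ∑ i, (res51 φ').φ (T i i) := by
  have hc : (Fintype.card ν : ℂ) ≠ 0 := by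
    exact_mod_cast Fintype.card_ne_zero
  conv_lhs => rw [eij51_sum T]
  rw [map_sum, Finset.mul_sum]
  refine Finset.sum_congr rfl fun i _ => ?_
  rw [map_sum, Finset.sum_eq_single i]
  · rw [tr51_one φ' i, ← mul_assoc, inv_mul_cancel₀ hc, one_mul]
  · intro j _ hj
    exact tr51_off φ' i j (Ne.symm hj) _
  · intro h
    exact absurd (Finset.mem_univ i) h

lemma n251 [Nonempty ν] (φ' : TState (CStarMatrix ν ν A)) (T : CStarMatrix ν ν A) {δ ε : ℝ}
    (hδ : 0 ≤ δ) (hε : 0 ≤ ε) (h : ∀ i j, n2 (res51 φ') (T i j) ≤ δ)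
    (h2 : (Fintype.card ν : ℝ) * δ ^ 2 ≤ ε ^ 2) : n2 φ' T ≤ ε := by
  have hc : (Fintype.card ν : ℝ) ≠ 0 := by
    exact_mod_cast Fintype.card_ne_zero
  have h3 : ∀ i j, ((res51 φ').φ (star (T i j) * T i j)).re ≤ δ ^ 2 := by
    intro i j
    exact (Real.sqrt_le_left hδ).1 (h i j)
  unfold n2
  rw [Real.sqrt_le_left hε]
  refine le_trans ?_ h2
  rw [tr51]
  have h4 : ∀ i, (star T * T) i i = ∑ j, star (T j i) * T j i := by
    intro i
    rw [CStarMatrix.mul_apply]
    rfl
  have h5 : ((Fintype.card ν : ℂ)⁻¹ * ∑ i, (res51 φ').φ ((star T * T) i i)).re =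
      (Fintype.card ν : ℝ)⁻¹ * ∑ i, ∑ j, ((res51 φ').φ (star (T j i) * T j i)).re := by
    have h6 : (Fintype.card ν : ℂ)⁻¹ = (((Fintype.card ν : ℝ)⁻¹ : ℝ) : ℂ) := by
      push_cast
      rfl
    rw [h6, Complex.re_ofReal_mul, Complex.re_sum]
    congr 1
    refine Finset.sum_congr rfl fun i _ => ?_
    rw [h4, map_sum, Complex.re_sum]
  rw [h5]
  have h7 : ∑ i : ν, ∑ j : ν, ((res51 φ').φ (star (T j i) * T j i)).re ≤
      ∑ i : ν, ∑ j : ν, δ ^ 2 :=
    Finset.sum_le_sum fun i _ => Finset.sum_le_sum fun j _ => h3 j i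
  have h8 : ∑ i : ν, ∑ j : ν, δ ^ 2 = (Fintype.card ν : ℝ) * ((Fintype.card ν : ℝ) * δ ^ 2) := by
    simp only [Finset.sum_const, Finset.card_univ, nsmul_eq_mul]
  rw [h8] at h7
  calc (Fintype.card ν : ℝ)⁻¹ * ∑ i, ∑ j, ((res51 φ').φ (star (T j i) * T j i)).re
      ≤ (Fintype.card ν : ℝ)⁻¹ * ((Fintype.card ν : ℝ) * ((Fintype.card ν : ℝ) * δ ^ 2)) :=
        mul_le_mul_of_nonneg_left h7 (by positivity)
    _ = (Fintype.card ν : ℝ) * δ ^ 2 := by rw [← mul_assoc, inv_mul_cancel₀ hc, one_mul]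

end

theorem eHMat51 : EHMatP.{u} := by
  classical
  intro A _ _ _ G α hE ν _ _ _ β hβ F' ε hε
  set N : ℝ := (Fintype.card ν : ℝ) with hN
  have hN1 : 1 ≤ N := by
    rw [hN]
    exact_mod_cast Fintype.card_pos
  have hN0 : 0 < N := by linarith
  set δ : ℝ := ε / N with hδdef
  have hδ : 0 < δ := div_pos hε hN0
  have hδε : δ ≤ ε := by
    rw [hδdef, div_le_iff₀ hN0]
    nlinarith
  have hδ2 : N * δ ^ 2 ≤ ε ^ 2 := by
    have h1 : N * δ = ε := by rw [hδdef]; field_simp
    calc N * δ ^ 2 = (N * δ) * δ := by ring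
      _ = ε * δ := by rw [h1]
      _ ≤ ε * ε := mul_le_mul_of_nonneg_left hδε hε.le
      _ = ε ^ 2 := by ring
  obtain ⟨y, hy1, hy2, hy3, hy4⟩ := hE
    ((F' ×ˢ (Finset.univ ×ˢ Finset.univ : Finset (ν × ν))).image fun p => p.1 p.2.1 p.2.2) δ hδ
  have hmem : ∀ T ∈ F', ∀ i j, T i j ∈
      (F' ×ˢ (Finset.univ ×ˢ Finset.univ : Finset (ν × ν))).image fun p => p.1 p.2.1 p.2.2 := by
    intro T hT i j
    refine Finset.mem_image.2 ⟨(T, (i, j)), ?_, rfl⟩
    simp [hT]
  have hle : ∀ a b : A, a ≤ b → dg ν a ≤ dg ν b := by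
    intro a b hab
    have h1 : 0 ≤ dgH ν (b - a) := map_nonneg (dgH ν) (sub_nonneg.2 hab)
    rw [map_sub, sub_nonneg] at h1
    exact h1
  refine ⟨dg ν y, fun g => by rw [hβ, hy1 g], dg_nonneg hy2, ?_, ?_⟩
  · have h1 := hle _ _ hy3
    have h2 : dg ν (1 : A) = 1 := map_one (dgH ν)
    rwa [h2] at h1
  · intro φ' hφ'
    have hinv : Inv α (res51 φ') := by
      intro g a
      rw [res51_apply, res51_apply, ← hβ, hφ']
    obtain ⟨k1, k2⟩ := hy4 (res51 φ') hinv
    refine ⟨?_, ?_⟩
    · have h1 : n2 φ' (dg ν y - dg ν y * dg ν y) = n2 (res51 φ') (y - y * y) := by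
        unfold n2
        rw [res51_apply]
        have h2 : dg ν (star (y - y * y) * (y - y * y)) =
            star (dg ν y - dg ν y * dg ν y) * (dg ν y - dg ν y * dg ν y) := by
          show dgH ν (star (y - y * y) * (y - y * y)) =
            star (dgH ν y - dgH ν y * dgH ν y) * (dgH ν y - dgH ν y * dgH ν y)
          rw [map_mul, map_star, map_sub, map_mul]
        rw [h2]
      rw [h1]
      exact k1.trans hδε
    · intro T hT
      have e1 : ∀ i j, (dg ν y * T) i j = y * T i j := by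
        intro i j
        rw [CStarMatrix.mul_apply, Finset.sum_eq_single i]
        · rw [dg_apply, if_pos rfl]
        · intro k _ hk
          rw [dg_apply, if_neg (Ne.symm hk), zero_mul]
        · intro h
          exact absurd (Finset.mem_univ i) h
      have e2 : ∀ i j, (T * dg ν y) i j = T i j * y := by
        intro i j
        rw [CStarMatrix.mul_apply, Finset.sum_eq_single j]
        · rw [dg_apply, if_pos rfl]
        · intro k _ hk
          rw [dg_apply, if_neg hk, mul_zero]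
        · intro h
          exact absurd (Finset.mem_univ j) h
      refine ⟨?_, ?_⟩
      · refine n251 φ' _ hδ.le hε.le (fun i j => ?_) hδ2
        have e3 : (dg ν y * T - T * dg ν y) i j = y * T i j - T i j * y := by
          rw [← e1, ← e2]
          rfl
        rw [e3]
        exact (k2 _ (hmem T hT i j)).1
      · rw [tr51 φ' (dg ν y * T), tr51 φ' T]
        have e4 : (Fintype.card ν : ℂ)⁻¹ * ∑ i, (res51 φ').φ ((dg ν y * T) i i) -
            (Fintype.card ν : ℂ)⁻¹ * (∑ i, (res51 φ').φ (T i i)) / 2 =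
            (Fintype.card ν : ℂ)⁻¹ *
              ∑ i, ((res51 φ').φ (y * T i i) - (res51 φ').φ (T i i) / 2) := by
          rw [Finset.sum_sub_distrib, ← Finset.sum_div, mul_sub]
          simp only [e1]
          ring
        rw [e4, norm_mul, norm_inv, Complex.norm_natCast]
        have e5 : ‖∑ i, ((res51 φ').φ (y * T i i) - (res51 φ').φ (T i i) / 2)‖ ≤ N * δ := by
          refine (norm_sum_le _ _).trans ?_
          refine (Finset.sum_le_sum fun i _ => (k2 _ (hmem T hT i i)).2).trans (le_of_eq ?_)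
          rw [Finset.sum_const, Finset.card_univ, nsmul_eq_mul]
        calc (Fintype.card ν : ℝ)⁻¹ *
              ‖∑ i, ((res51 φ').φ (y * T i i) - (res51 φ').φ (T i i) / 2)‖
            ≤ (Fintype.card ν : ℝ)⁻¹ * (N * δ) :=
              mul_le_mul_of_nonneg_left e5 (by positivity)
          _ = δ := by
              rw [← hN, ← mul_assoc, inv_mul_cancel₀ hN0.ne', one_mul]
          _ ≤ ε := hδε

end RC
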